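import Pool.Agent.P.MP_b6f08f_co.Defs

/-! Weights, the test function bound and the counts for tribes. -/

set_option autoImplicit false

namespace Pool.Agent.P.MP_b6f08f_co

open Finset


/-- Hamming weight. -/
def wt {ι : Type} [Fintype ι] (x : ι → Bool) : ℝ := ∑ j, if x j = true then (1 : ℝ) else 0

lemma wt_sub_le {n : ℕ} (x y : Cube n) : wt y - wt x ≤ (hammingDist x y : ℝ) := by
  unfold wt hammingDist
  rw [← Finset.sum_sub_distrib, Finset.card_filter]
  push_cast
  apply Finset.sum_le_sum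
  intro j _
  cases hx : x j <;> cases hy : y j <;> simp

lemma W1_ge {n : ℕ} (μ ν : Cube n → ℝ) (hμ : ∀ x, 0 ≤ μ x) (hν : ∀ x, 0 ≤ ν x)
    (hμ1 : ∑ x, μ x = 1) (hν1 : ∑ x, ν x = 1) :
    ∑ y, wt y * ν y - ∑ x, wt x * μ x ≤ W1 μ ν := by
  unfold W1
  apply le_csInf
  · refine ⟨_, fun x y => μ x * ν y, ⟨fun x y => mul_nonneg (hμ x) (hν y), ?_, ?_⟩, rfl⟩
    · intro x
      rw [← Finset.mul_sum, hν1, mul_one]
    · intro y
      rw [← Finset.sum_mul, hμ1, one_mul]
  · rintro c ⟨q, ⟨hq0, hq1, hq2⟩, rfl⟩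
    have e1 : ∑ y, wt y * ν y = ∑ x, ∑ y, wt y * q x y := by
      rw [Finset.sum_comm]
      apply Finset.sum_congr rfl
      intro y _
      rw [← hq2 y, Finset.mul_sum]
    have e2 : ∑ x, wt x * μ x = ∑ x, ∑ y, wt x * q x y := by
      apply Finset.sum_congr rfl
      intro x _
      rw [← hq1 x, Finset.mul_sum]
    rw [e1, e2, ← Finset.sum_sub_distrib]
    apply Finset.sum_le_sum
    intro x _
    rw [← Finset.sum_sub_distrib]
    apply Finset.sum_le_sum
    intro y _
    rw [← sub_mul]
    exact mul_le_mul_of_nonneg_right (wt_sub_le x y) (hq0 x y)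

lemma unif_nonneg {n : ℕ} (A : Finset (Cube n)) (x : Cube n) : 0 ≤ unif A x := by
  unfold unif
  split_ifs <;> positivity

lemma sum_mul_unif {n : ℕ} (A : Finset (Cube n)) (f : Cube n → ℝ) :
    ∑ x, f x * unif A x = (∑ x ∈ A, f x) / (A.card : ℝ) := by
  unfold unif
  simp only [mul_ite, mul_zero]
  rw [← Finset.sum_filter, Finset.sum_div]
  apply Finset.sum_congr
  · ext x; simp
  · intro x _; ring

lemma sum_unif {n : ℕ} (A : Finset (Cube n)) (hA : 0 < A.card) : ∑ x, unif A x = 1 := by
  have h := sum_mul_unif A (fun _ => 1)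
  simp only [one_mul, Finset.sum_const, nsmul_eq_mul, mul_one] at h
  rw [h]
  have : (A.card : ℝ) ≠ 0 := by positivity
  field_simp

/-- Splitting the coordinates into blocks. -/
def blocks (s w : ℕ) : Cube (s * w) ≃ (Fin s → Fin w → Bool) :=
  (Equiv.arrowCongr finProdFinEquiv.symm (Equiv.refl Bool)).trans (Equiv.curry _ _ _)

lemma blocks_apply (s w : ℕ) (x : Cube (s * w)) (i : Fin s) (j : Fin w) :
    blocks s w x i j = x (finProdFinEquiv (i, j)) := by
  simp [blocks, Equiv.arrowCongr, Function.curry]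

lemma tribes_iff (s w : ℕ) (x : Cube (s * w)) :
    Tribes s w x ↔ ∃ i : Fin s, blocks s w x i = fun _ => true := by
  constructor
  · rintro ⟨i, hi, h⟩
    refine ⟨⟨i, hi⟩, ?_⟩
    funext j
    rw [blocks_apply]
    apply h
    · simp [finProdFinEquiv]; nlinarith
    · have := j.2
      simp [finProdFinEquiv]; nlinarith
  · rintro ⟨i, h⟩
    refine ⟨i, i.2, ?_⟩
    intro j h1 h2
    have hj : (j : ℕ) - i * w < w := by
      have : (i + 1 : ℕ) * w = i * w + w := by ring
      omega
    have := congrFun h ⟨j - i * w, hj⟩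
    rw [blocks_apply] at this
    have e : finProdFinEquiv (i, (⟨j - i * w, hj⟩ : Fin w)) = j := by
      apply Fin.ext
      simp only [finProdFinEquiv, Equiv.coe_fn_mk]
      have : w * (i : ℕ) = i * w := by ring
      omega
    rwa [e] at this

lemma wt_blocks (s w : ℕ) (x : Cube (s * w)) : wt x = ∑ i, wt (blocks s w x i) := by
  unfold wt
  rw [← Fintype.sum_prod_type' (f := fun i j => if blocks s w x i j = true then (1 : ℝ) else 0)]
  rw [← finProdFinEquiv.sum_comp]
  apply Finset.sum_congr rfl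
  rintro ⟨i, j⟩ _
  rw [blocks_apply]

lemma sum_pi {α : Type} [DecidableEq α] (s : ℕ) (t : Finset α) (g : α → ℝ) :
    ∑ p ∈ Fintype.piFinset (fun _ : Fin s => t), ∑ i, g (p i)
      = s * ((∑ a ∈ t, g a) * (t.card : ℝ) ^ (s - 1)) := by
  rw [Finset.sum_comm]
  have key : ∀ i : Fin s, ∑ p ∈ Fintype.piFinset (fun _ : Fin s => t), g (p i)
      = (∑ a ∈ t, g a) * (t.card : ℝ) ^ (s - 1) := by
    intro i
    have h := Finset.prod_univ_sum (fun _ : Fin s => t)
      (fun k a => if k = i then g a else (1 : ℝ))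
    have h2 : ∀ p : Fin s → α, ∏ k, (if k = i then g (p k) else (1 : ℝ)) = g (p i) := by
      intro p
      rw [Finset.prod_ite_eq']
      simp
    simp only [h2] at h
    rw [← h, ← Finset.mul_prod_erase _ _ (Finset.mem_univ i)]
    simp only [if_true]
    congr 1
    rw [Finset.prod_congr rfl (g := fun _ => (t.card : ℝ))]
    · simp
    · intro k hk
      have : k ≠ i := Finset.ne_of_mem_erase hk
      simp [this]
  simp only [key, Finset.sum_const, Finset.card_univ, Fintype.card_fin, nsmul_eq_mul]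

lemma sum_wt_univ (w : ℕ) : ∑ a : Fin w → Bool, wt a = w * (2 : ℝ) ^ (w - 1) := by
  have h := sum_pi w (Finset.univ : Finset Bool) (fun b => if b = true then (1 : ℝ) else 0)
  rw [Fintype.piFinset_univ] at h
  unfold wt
  rw [h]
  simp

lemma setZ_map (s w : ℕ) :
    (setZ s w).map (blocks s w).toEmbedding
      = Fintype.piFinset (fun _ : Fin s => (Finset.univ : Finset (Fin w → Bool)).erase
          (fun _ => true)) := by
  ext p
  simp only [Finset.mem_map_equiv, setZ, setA, Finset.mem_compl, Finset.mem_filter,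
    Finset.mem_univ, true_and, tribes_iff, Equiv.apply_symm_apply, Fintype.mem_piFinset,
    Finset.mem_erase, and_true, not_exists, ne_eq]

lemma card_setZ (s w : ℕ) : ((setZ s w).card : ℝ) = ((2 : ℝ) ^ w - 1) ^ s := by
  rw [← Finset.card_map (blocks s w).toEmbedding, setZ_map, Fintype.card_piFinset]
  simp only [Finset.prod_const, Finset.card_univ, Fintype.card_fin]
  rw [Finset.card_erase_of_mem (Finset.mem_univ _)]
  simp only [Finset.card_univ, Fintype.card_pi, Fintype.card_bool, Finset.prod_const,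
    Fintype.card_fin]
  push_cast
  rw [Nat.cast_sub Nat.one_le_two_pow]
  simp

lemma sum_wt_setZ (s w : ℕ) :
    ∑ x ∈ setZ s w, wt x
      = s * ((w * (2 : ℝ) ^ (w - 1) - w) * ((2 : ℝ) ^ w - 1) ^ (s - 1)) := by
  have h := sum_pi s ((Finset.univ : Finset (Fin w → Bool)).erase (fun _ => true)) wt
  rw [← setZ_map, Finset.sum_map] at h
  simp only [Equiv.coe_toEmbedding, ← wt_blocks] at h
  rw [h]
  congr 2
  · rw [Finset.sum_erase_eq_sub (Finset.mem_univ _), sum_wt_univ]
    simp [wt]
  · rw [Finset.card_erase_of_mem (Finset.mem_univ _)]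
    simp only [Finset.card_univ, Fintype.card_pi, Fintype.card_bool, Finset.prod_const,
      Fintype.card_fin]
    rw [Nat.cast_sub Nat.one_le_two_pow]
    simp

end Pool.Agent.P.MP_b6f08f_co
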