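import Mathlib

/-! Definitions for the earth mover's distance between the level sets of tribes. -/

set_option autoImplicit false

namespace Pool.Agent.P.MP_b6f08f_co

open Finset

/-- The cube `{0,1}^n`; `true` is 1 and `false` is 0. -/
abbrev Cube (n : ℕ) : Type := Fin n → Bool

/-- `q` is a coupling of the probability mass functions `μ` and `ν` on the cube. -/
def IsCoupling {n : ℕ} (μ ν : Cube n → ℝ) (q : Cube n → Cube n → ℝ) : Prop :=
  (∀ x y, 0 ≤ q x y) ∧ (∀ x, ∑ y, q x y = μ x) ∧ (∀ y, ∑ x, q x y = ν y)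

/-- The earth mover's distance for the Hamming distance: the infimum of the expected Hamming
distance over all couplings. -/
noncomputable def W1 {n : ℕ} (μ ν : Cube n → ℝ) : ℝ :=
  sInf {c : ℝ | ∃ q : Cube n → Cube n → ℝ, IsCoupling μ ν q ∧
    c = ∑ x, ∑ y, (hammingDist x y : ℝ) * q x y}

/-- The uniform probability mass function on a finite subset of the cube. -/
noncomputable def unif {n : ℕ} (A : Finset (Cube n)) : Cube n → ℝ :=
  fun x => if x ∈ A then 1 / (A.card : ℝ) else 0

/-- `T_{s,w}(x) = 1`: some block `i < s` (coordinates `i w ≤ j < (i+1) w`, counted from 0)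
is all ones. -/
def Tribes (s w : ℕ) (x : Cube (s * w)) : Prop :=
  ∃ i : ℕ, i < s ∧ ∀ j : Fin (s * w), i * w ≤ (j : ℕ) → (j : ℕ) < (i + 1) * w → x j = true

/-- `s_w`: the largest `s` with `1 - (1 - 2^(-w))^s ≤ 1/2`. -/
noncomputable def sw (w : ℕ) : ℕ :=
  sSup {s : ℕ | 1 - (1 - 1 / (2 : ℝ) ^ w) ^ s ≤ 1 / 2}

open Classical in
/-- `A = T_{s,w}^{-1}(1)`. -/
noncomputable def setA (s w : ℕ) : Finset (Cube (s * w)) := univ.filter (fun x => Tribes s w x)

/-- `Z`, the complement of `A`. -/
noncomputable def setZ (s w : ℕ) : Finset (Cube (s * w)) := (setA s w)ᶜ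

end Pool.Agent.P.MP_b6f08f_co
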