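import Pool.Agent.P.MP_b6f08f_co.Base

/-! A monotone coupling of the uniform measures on a lower set and on an upper set. -/

set_option autoImplicit false

namespace Pool.Agent.P.MP_b6f08f_co

open Finset
open scoped FinsetFamily

lemma dist_of_le {n : ℕ} (x y : Cube n) (h : x ≤ y) : (hammingDist x y : ℝ) = wt y - wt x := by
  unfold wt hammingDist
  rw [← Finset.sum_sub_distrib, Finset.card_filter]
  push_cast
  apply Finset.sum_congr rfl
  intro j _
  have := h j
  revert this
  cases x j <;> cases y j <;> simp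

/-- Hall's condition through Daykin's inequality. -/
lemma exists_match {n : ℕ} (Z A : Finset (Cube n))
    (hZ : ∀ x y, x ≤ y → y ∈ Z → x ∈ Z) (hA : ∀ x y, x ≤ y → x ∈ A → y ∈ A) :
    ∃ f : Z × A → Z × A, Function.Bijective f ∧ ∀ p, (p.1 : Cube n) ≤ (f p).2 := by
  classical
  have := (Fintype.all_card_le_filter_rel_iff_exists_injective
    (fun p p' : Z × A => (p.1 : Cube n) ≤ p'.2)).1 ?_
  · obtain ⟨f, h1, h2⟩ := this
    exact ⟨f, Finite.injective_iff_bijective.1 h1, h2⟩
  intro S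
  set U : Finset (Cube n) := S.image (fun p => (p.1 : Cube n)) with hU
  have h1 : #S ≤ #U * #A := by
    rw [← Finset.card_product]
    refine Finset.card_le_card_of_injOn (fun p => ((p.1 : Cube n), (p.2 : Cube n))) ?_ ?_
    · intro p hp
      simp only [Finset.coe_product, Set.mem_prod, Finset.mem_coe]
      exact ⟨Finset.mem_image_of_mem _ hp, p.2.2⟩
    · intro p _ p' _ e
      simp only [Prod.mk.injEq] at e
      exact Prod.ext (Subtype.ext e.1) (Subtype.ext e.2)
  have h2 := Finset.le_card_infs_mul_card_sups U A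
  have h3 : #(U ⊼ A) * #(U ⊻ A) ≤ #{b : Z × A | ∃ a ∈ S, (a.1 : Cube n) ≤ b.2} := by
    rw [← Finset.card_product]
    refine le_trans (Finset.card_le_card (t := ({b : Z × A | ∃ a ∈ S, (a.1 : Cube n) ≤ b.2} :
      Finset _).image (fun p => ((p.1 : Cube n), (p.2 : Cube n)))) ?_) Finset.card_image_le
    rintro ⟨x, y⟩ hxy
    obtain ⟨hx, hy⟩ := Finset.mem_product.1 hxy
    obtain ⟨u, hu, a, -, rfl⟩ := Finset.mem_infs.1 hx
    obtain ⟨u', hu', a', ha', rfl⟩ := Finset.mem_sups.1 hy
    obtain ⟨p, -, rfl⟩ := Finset.mem_image.1 hu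
    obtain ⟨p', hp', rfl⟩ := Finset.mem_image.1 hu'
    refine Finset.mem_image.2 ⟨(⟨_, hZ _ _ inf_le_left p.1.2⟩, ⟨_, hA _ _ le_sup_right ha'⟩),
      ?_, rfl⟩
    exact Finset.mem_filter.2 ⟨Finset.mem_univ _, p', hp', le_sup_left⟩
  exact h1.trans (h2.trans h3)

lemma cost_eq {n : ℕ} (μ ν : Cube n → ℝ) (q : Cube n → Cube n → ℝ) (hq : IsCoupling μ ν q)
    (hm : ∀ x y, q x y ≠ 0 → x ≤ y) :
    ∑ x, ∑ y, (hammingDist x y : ℝ) * q x y = ∑ y, wt y * ν y - ∑ x, wt x * μ x := by
  obtain ⟨-, hq1, hq2⟩ := hq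
  have e1 : ∑ y, wt y * ν y = ∑ x, ∑ y, wt y * q x y := by
    rw [Finset.sum_comm]
    apply Finset.sum_congr rfl
    intro y _
    rw [← hq2 y, Finset.mul_sum]
  have e2 : ∑ x, wt x * μ x = ∑ x, ∑ y, wt x * q x y := by
    apply Finset.sum_congr rfl
    intro x _
    rw [← hq1 x, Finset.mul_sum]
  rw [e1, e2, ← Finset.sum_sub_distrib]
  apply Finset.sum_congr rfl
  intro x _
  rw [← Finset.sum_sub_distrib]
  apply Finset.sum_congr rfl
  intro y _
  by_cases h : q x y = 0
  · simp [h]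
  · rw [dist_of_le x y (hm x y h), sub_mul]

lemma sum_fst {n : ℕ} (Z A : Finset (Cube n)) (x : Cube n) (c : ℝ) :
    ∑ p : Z × A, (if (p.1 : Cube n) = x then c else 0) = if x ∈ Z then #A * c else 0 := by
  classical
  rw [Fintype.sum_prod_type, ← Finset.sum_ite_eq' Z x (fun _ => (#A : ℝ) * c),
    ← Finset.sum_coe_sort Z]
  refine Finset.sum_congr rfl fun z _ => ?_
  by_cases h : (z : Cube n) = x <;> simp [h]

lemma sum_snd {n : ℕ} (Z A : Finset (Cube n)) (y : Cube n) (c : ℝ) :
    ∑ p : Z × A, (if (p.2 : Cube n) = y then c else 0) = if y ∈ A then #Z * c else 0 := by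
  rw [← sum_fst A Z y c]
  exact Fintype.sum_equiv (Equiv.prodComm _ _) _ _ (fun _ => rfl)

/-- The earth mover's distance from a lower set to an upper set is the gap of mean weights. -/
lemma W1_eq {n : ℕ} (Z A : Finset (Cube n)) (hZ0 : 0 < #Z) (hA0 : 0 < #A)
    (hZ : ∀ x y, x ≤ y → y ∈ Z → x ∈ Z) (hA : ∀ x y, x ≤ y → x ∈ A → y ∈ A) :
    W1 (unif Z) (unif A) = (∑ y ∈ A, wt y) / #A - (∑ x ∈ Z, wt x) / #Z := by
  classical
  rw [← sum_mul_unif, ← sum_mul_unif]
  refine le_antisymm ?_ (W1_ge _ _ (unif_nonneg _) (unif_nonneg _) (sum_unif _ hZ0)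
    (sum_unif _ hA0))
  obtain ⟨f, hf, hle⟩ := exists_match Z A hZ hA
  have hz : (0 : ℝ) < #Z := by exact_mod_cast hZ0
  have ha : (0 : ℝ) < #A := by exact_mod_cast hA0
  set c : ℝ := 1 / (#Z * #A) with hc
  have hc0 : 0 ≤ c := by positivity
  set q : Cube n → Cube n → ℝ := fun x y =>
    ∑ p : Z × A, if (p.1 : Cube n) = x then (if ((f p).2 : Cube n) = y then c else 0) else 0
    with hq
  have hcoup : IsCoupling (unif Z) (unif A) q := by
    refine ⟨fun x y => Finset.sum_nonneg fun p _ => ?_, fun x => ?_, fun y => ?_⟩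
    · split_ifs <;> simp [hc0]
    · simp only [hq]
      rw [Finset.sum_comm]
      have e : ∀ p : Z × A, ∑ y : Cube n, (if (p.1 : Cube n) = x then
          (if ((f p).2 : Cube n) = y then c else 0) else 0) =
          if (p.1 : Cube n) = x then c else 0 := fun p => by
        split_ifs <;> simp
      simp only [e]
      rw [sum_fst, unif]
      split_ifs
      · rw [hc]; field_simp
      · rfl
    · simp only [hq]
      rw [Finset.sum_comm]
      have e : ∀ p : Z × A, ∑ x : Cube n, (if (p.1 : Cube n) = x then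
          (if ((f p).2 : Cube n) = y then c else 0) else 0) =
          if ((f p).2 : Cube n) = y then c else 0 := fun p => by
        rw [Finset.sum_ite_eq]; simp
      simp only [e]
      rw [hf.sum_comp (fun p : Z × A => if (p.2 : Cube n) = y then c else 0), sum_snd, unif]
      split_ifs
      · rw [hc]; field_simp
      · rfl
  have hm : ∀ x y, q x y ≠ 0 → x ≤ y := by
    intro x y h
    obtain ⟨p, -, hp⟩ := Finset.exists_ne_zero_of_sum_ne_zero h
    by_cases h1 : (p.1 : Cube n) = x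
    · by_cases h2 : ((f p).2 : Cube n) = y
      · rw [← h1, ← h2]; exact hle p
      · simp [h2] at hp
    · simp [h1] at hp
  rw [← cost_eq _ _ q hcoup hm]
  refine csInf_le ⟨0, ?_⟩ ⟨q, hcoup, rfl⟩
  rintro _ ⟨q', ⟨h0, -, -⟩, rfl⟩
  exact Finset.sum_nonneg fun x _ => Finset.sum_nonneg fun y _ =>
    mul_nonneg (Nat.cast_nonneg _) (h0 x y)

end Pool.Agent.P.MP_b6f08f_co
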