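import Pool.Agent.P.MP_b6f08f_co.Mono

/-! The exact value for tribes and its size. -/

set_option autoImplicit false

namespace Pool.Agent.P.MP_b6f08f_co

open Finset

lemma two_le_pow (w : ℕ) (hw : 1 ≤ w) : (2 : ℝ) ≤ 2 ^ w := by
  calc (2 : ℝ) = 2 ^ 1 := by norm_num
    _ ≤ 2 ^ w := pow_le_pow_right₀ (by norm_num) hw

lemma setA_up (s w : ℕ) (x y : Cube (s * w)) (h : x ≤ y) (hx : x ∈ setA s w) : y ∈ setA s w := by
  simp only [setA, Finset.mem_filter, Finset.mem_univ, true_and] at hx ⊢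
  obtain ⟨i, hi, h'⟩ := hx
  refine ⟨i, hi, fun j h1 h2 => ?_⟩
  have := h j
  rw [h' j h1 h2] at this
  exact top_le_iff.1 this

lemma exact_value (s w : ℕ) (hs : 1 ≤ s) (hw : 1 ≤ w) :
    W1 (unif (setZ s w)) (unif (setA s w)) =
      s * w / (2 * ((2 : ℝ) ^ w - 1) * (1 - (1 - 1 / (2 : ℝ) ^ w) ^ s)) := by
  have hN := two_le_pow w hw
  have hZ := card_setZ s w
  have hZpos : (0 : ℝ) < ((setZ s w).card : ℝ) := by
    rw [hZ]; apply pow_pos; linarith
  have htot : ((setA s w).card : ℝ) + ((setZ s w).card : ℝ) = 2 ^ (s * w) := by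
    have := Finset.card_add_card_compl (setA s w)
    simp only [Fintype.card_pi, Fintype.card_bool, Finset.prod_const, Finset.card_univ,
      Fintype.card_fin] at this
    unfold setZ
    exact_mod_cast this
  have hp : (2 : ℝ) ^ (s * w) = (2 ^ w) ^ s := by rw [mul_comm s w, pow_mul]
  have hlt : ((2 : ℝ) ^ w - 1) ^ s < 2 ^ (s * w) := by
    rw [hp]
    apply pow_lt_pow_left₀ (by linarith) (by linarith) (by omega)
  have hApos : (0 : ℝ) < ((setA s w).card : ℝ) := by linarith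
  have hsum : ∑ x ∈ setA s w, wt x + ∑ x ∈ setZ s w, wt x
      = (s * w : ℝ) * 2 ^ (s * w - 1) := by
    unfold setZ
    rw [Finset.sum_add_sum_compl, sum_wt_univ]
    push_cast
    ring
  have hSZ := sum_wt_setZ s w
  rw [W1_eq _ _ (by exact_mod_cast hZpos) (by exact_mod_cast hApos) ?_ (setA_up s w)]
  swap
  · intro x y h hy
    simp only [setZ, Finset.mem_compl] at hy ⊢
    exact fun hx => hy (setA_up s w x y h hx)
  set a : ℝ := ((setA s w).card : ℝ) with ha
  set z : ℝ := ((setZ s w).card : ℝ) with hz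
  set SA := ∑ x ∈ setA s w, wt x
  set SZ := ∑ x ∈ setZ s w, wt x
  set N : ℝ := 2 ^ w with hNdef
  have hN2 : (2 : ℝ) ^ (w - 1) = N / 2 := by
    rw [hNdef]
    obtain ⟨k, rfl⟩ := Nat.exists_eq_add_of_le hw
    rw [Nat.add_sub_cancel_left, pow_add]; ring
  have hT2 : (2 : ℝ) ^ (s * w - 1) = (a + z) / 2 := by
    rw [htot]
    have : 1 ≤ s * w := Nat.mul_pos hs hw
    obtain ⟨k, hk⟩ := Nat.exists_eq_add_of_le this
    rw [hk, Nat.add_sub_cancel_left, pow_add]; ring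
  have hN1 : 0 < N - 1 := by linarith
  have hz1 : (N - 1) ^ (s - 1) = z / (N - 1) := by
    rw [hZ]
    obtain ⟨k, rfl⟩ := Nat.exists_eq_add_of_le hs
    rw [Nat.add_sub_cancel_left, pow_add]
    field_simp
  have hq : 1 - (1 - 1 / N) ^ s = a / (a + z) := by
    have e : 1 - 1 / N = (N - 1) / N := by field_simp
    rw [e, div_pow, ← hZ, ← hp, ← htot]
    field_simp
    ring
  rw [hN2, hz1] at hSZ
  rw [hT2] at hsum
  rw [hq, hSZ, show SA = s * w * ((a + z) / 2) - SZ by linarith, hSZ]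
  field_simp
  ring

lemma sw_spec (w : ℕ) (hw : 1 ≤ w) :
    1 ≤ sw w ∧ 1 / 2 ≤ (1 - 1 / (2 : ℝ) ^ w) ^ sw w ∧
      (1 - 1 / (2 : ℝ) ^ w) ^ (sw w + 1) < 1 / 2 := by
  have hN := two_le_pow w hw
  have hpos : (0 : ℝ) < 1 / 2 ^ w := by positivity
  have hle : 1 / (2 : ℝ) ^ w ≤ 1 / 2 := one_div_le_one_div_of_le (by norm_num) hN
  have hb : BddAbove {s : ℕ | 1 - (1 - 1 / (2 : ℝ) ^ w) ^ s ≤ 1 / 2} := by
    obtain ⟨m, hm⟩ := exists_pow_lt_of_lt_one (show (0 : ℝ) < 1 / 2 by norm_num)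
      (show 1 - 1 / (2 : ℝ) ^ w < 1 by linarith)
    refine ⟨m, ?_⟩
    intro s hs
    simp only [Set.mem_ofPred_eq] at hs
    by_contra hc
    push Not at hc
    have : (1 - 1 / (2 : ℝ) ^ w) ^ s ≤ (1 - 1 / (2 : ℝ) ^ w) ^ m :=
      pow_le_pow_of_le_one (by linarith) (by linarith) hc.le
    linarith
  have h1 : 1 ∈ {s : ℕ | 1 - (1 - 1 / (2 : ℝ) ^ w) ^ s ≤ 1 / 2} := by
    simp only [Set.mem_ofPred_eq, pow_one]
    linarith
  have h2 := Nat.sSup_mem ⟨1, h1⟩ hb
  have h3 := notMem_of_csSup_lt (Nat.lt_add_one _) hb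
  simp only [Set.mem_ofPred_eq] at h2 h3
  refine ⟨le_csSup hb h1, ?_, ?_⟩
  · unfold sw; linarith
  · unfold sw; linarith [not_le.1 h3]

lemma size (N w : ℝ) (s : ℕ) (hN : N = 2 ∨ 4 ≤ N) (hw : 0 ≤ w) (hs : 1 ≤ s)
    (h1 : 1 / 2 ≤ (1 - 1 / N) ^ s) (h2 : (1 - 1 / N) ^ (s + 1) < 1 / 2) :
    |s * w / (2 * (N - 1) * (1 - (1 - 1 / N) ^ s)) - w * Real.log 2| ≤ 3 * w / N := by
  have hN2 : 2 ≤ N := by rcases hN with h | h <;> linarith
  have hN0 : 0 < N := by linarith
  have hN1 : 0 < N - 1 := by linarith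
  have e : 1 - 1 / N = (N - 1) / N := by field_simp
  have hq0 : 0 < 1 - 1 / N := by rw [e]; positivity
  have hq1 : 1 - 1 / N ≤ 1 := by
    have : 0 < 1 / N := by positivity
    linarith
  have hl := Real.log_two_lt_d9
  have hl' := Real.log_two_gt_d9
  have u1 : (s : ℝ) ≤ N * Real.log 2 := by
    have a1 := Real.log_le_log (by norm_num) h1
    rw [Real.log_pow, one_div, Real.log_inv] at a1
    have a2 := Real.log_le_sub_one_of_pos hq0
    have a3 : (s : ℝ) * Real.log (1 - 1 / N) ≤ s * (1 - 1 / N - 1) :=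
      mul_le_mul_of_nonneg_left a2 (Nat.cast_nonneg s)
    have a4 : (s : ℝ) * (1 - 1 / N - 1) = -(s / N) := by ring
    have a5 : (s : ℝ) / N ≤ Real.log 2 := by linarith
    rw [div_le_iff₀ hN0] at a5
    linarith
  have u2 : (N - 1) * Real.log 2 ≤ s + 1 := by
    have a1 := Real.log_le_log (pow_pos hq0 _) h2.le
    rw [Real.log_pow, one_div (2 : ℝ), Real.log_inv] at a1
    have a2 := Real.one_sub_inv_le_log_of_pos hq0
    have a3 : 1 - (1 - 1 / N)⁻¹ = -(1 / (N - 1)) := by rw [e]; field_simp; ring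
    rw [a3] at a2
    have a4 := mul_le_mul_of_nonneg_left a2 (Nat.cast_nonneg (α := ℝ) (s + 1))
    have a5 : Real.log 2 ≤ ((s + 1 : ℕ) : ℝ) / (N - 1) := by
      rw [div_eq_mul_one_div]; linarith
    rw [le_div_iff₀ hN1] at a5
    push_cast at a5
    linarith
  set r := (1 - 1 / N) ^ s with hr
  have r1 : r ≤ (N - 1) / N := by
    rw [← e, hr]
    exact pow_le_of_le_one hq0.le hq1 (by omega)
  have r2 : r * (N - 1) < N / 2 := by
    rw [pow_succ, ← hr, e, ← mul_div_assoc, div_lt_iff₀ hN0] at h2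
    linarith
  rw [le_div_iff₀ hN0] at r1
  set D := 2 * (N - 1) * (1 - r) with hD
  have d1 : D ≤ N - 1 := by nlinarith
  have d2 : N - 2 < D := by nlinarith
  have d0 : 0 < D := by linarith
  have key : |s / D - Real.log 2| ≤ 3 / N := by
    rw [abs_le]
    constructor
    · have b1 : (s : ℝ) / (N - 1) ≤ s / D :=
        div_le_div_of_nonneg_left (Nat.cast_nonneg s) d0 d1
      have b2 : Real.log 2 - 3 / N ≤ s / (N - 1) := by
        rw [le_div_iff₀ hN1]
        have : 1 ≤ 3 / N * (N - 1) := by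
          rw [div_mul_eq_mul_div, le_div_iff₀ hN0]; linarith
        nlinarith
      linarith
    · rw [sub_le_iff_le_add, div_le_iff₀ d0]
      rcases hN with h | h
      · subst h
        have : 1 ≤ D := by nlinarith
        nlinarith
      · have b1 : 2 * Real.log 2 ≤ 3 / N * (N - 2) := by
          rw [div_mul_eq_mul_div, le_div_iff₀ hN0]; nlinarith
        have b2 : 0 < 3 / N + Real.log 2 := by positivity
        nlinarith
  have e2 : s * w / D - w * Real.log 2 = w * (s / D - Real.log 2) := by ring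
  rw [e2, abs_mul, abs_of_nonneg hw]
  calc w * |s / D - Real.log 2| ≤ w * (3 / N) := mul_le_mul_of_nonneg_left key hw
    _ = 3 * w / N := by ring

lemma main (w : ℕ) (hw : 1 ≤ w) :
    |W1 (unif (setZ (sw w) w)) (unif (setA (sw w) w)) - w * Real.log 2| ≤ 3 * w / 2 ^ w := by
  obtain ⟨h0, h1, h2⟩ := sw_spec w hw
  rw [exact_value _ w h0 hw]
  refine size _ _ _ ?_ (Nat.cast_nonneg w) h0 h1 h2
  rcases hw.eq_or_lt with rfl | h
  · left; norm_num
  · right
    calc (4 : ℝ) = 2 ^ 2 := by norm_num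
      _ ≤ 2 ^ w := pow_le_pow_right₀ (by norm_num) h

end Pool.Agent.P.MP_b6f08f_co
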