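import Pool.Agent.P.MP_b6f08f_co.Value

set_option autoImplicit false

namespace Pool.Agent.Results.MP_b6f08f_co.ExactValue

open Pool.Agent.P.MP_b6f08f_co

/-- The exact earth mover's distance between the two level sets of tribes, and its size
`w ln 2 + O(w 2^(-w))` for `s = s_w`. -/
theorem result (s w : ℕ) (hs : 1 ≤ s) (hw : 1 ≤ w) :
    W1 (unif (setZ s w)) (unif (setA s w)) =
        (s : ℝ) * w / (2 * ((2 : ℝ) ^ w - 1) * (1 - (1 - 1 / (2 : ℝ) ^ w) ^ s)) ∧
      (s = sw w →
        |W1 (unif (setZ s w)) (unif (setA s w)) - (w : ℝ) * Real.log 2| ≤ 3 * (w : ℝ) / 2 ^ w) :=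
  ⟨exact_value s w hs hw, fun h => by subst h; exact main w hw⟩

end Pool.Agent.Results.MP_b6f08f_co.ExactValue
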