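import Mathlib

/-!
The earth mover's distance between the two level sets of the tribes function is unbounded.

The Hamming weight is 1-Lipschitz, so W1 is at least the difference of the expected weights,
and that difference is at least `s w / (2 (2^w - 1)) ≥ w / 4`.
-/

namespace Pool.Agent.Results.MP_b6f08f_co.TribesW1Unbounded

open Finset

/-- The cube `{0,1}^n`; `true` is 1 and `false` is 0. -/
abbrev Cube (n : ℕ) : Type := Fin n → Bool

/-- `q` is a coupling of the probability mass functions `μ` and `ν` on the cube. -/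
def IsCoupling {n : ℕ} (μ ν : Cube n → ℝ) (q : Cube n → Cube n → ℝ) : Prop :=
  (∀ x y, 0 ≤ q x y) ∧ (∀ x, ∑ y, q x y = μ x) ∧ (∀ y, ∑ x, q x y = ν y)

/-- The earth mover's distance for the Hamming distance: the infimum of the expected Hamming
distance over all couplings. -/
noncomputable def W1 {n : ℕ} (μ ν : Cube n → ℝ) : ℝ :=
  sInf {c : ℝ | ∃ q : Cube n → Cube n → ℝ, IsCoupling μ ν q ∧
    c = ∑ x, ∑ y, (hammingDist x y : ℝ) * q x y}

/-- The uniform probability mass function on a finite subset of the cube. -/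
noncomputable def unif {n : ℕ} (A : Finset (Cube n)) : Cube n → ℝ :=
  fun x => if x ∈ A then 1 / (A.card : ℝ) else 0

/-- `T_{s,w}(x) = 1`: some block `i < s` (coordinates `i w ≤ j < (i+1) w`, counted from 0)
is all ones. -/
def Tribes (s w : ℕ) (x : Cube (s * w)) : Prop :=
  ∃ i : ℕ, i < s ∧ ∀ j : Fin (s * w), i * w ≤ (j : ℕ) → (j : ℕ) < (i + 1) * w → x j = true

/-- `s_w`: the largest `s` with `1 - (1 - 2^(-w))^s ≤ 1/2`. -/
noncomputable def sw (w : ℕ) : ℕ :=
  sSup {s : ℕ | 1 - (1 - 1 / (2 : ℝ) ^ w) ^ s ≤ 1 / 2}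

open Classical in
/-- `A = T_{s,w}^{-1}(1)`. -/
noncomputable def setA (s w : ℕ) : Finset (Cube (s * w)) := univ.filter (fun x => Tribes s w x)

/-- `Z`, the complement of `A`. -/
noncomputable def setZ (s w : ℕ) : Finset (Cube (s * w)) := (setA s w)ᶜ

/-! ### Proof -/

/-- Hamming weight. -/
def wt {ι : Type} [Fintype ι] (x : ι → Bool) : ℝ := ∑ j, if x j = true then (1 : ℝ) else 0

lemma wt_sub_le {n : ℕ} (x y : Cube n) : wt y - wt x ≤ (hammingDist x y : ℝ) := by
  unfold wt hammingDist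
  rw [← Finset.sum_sub_distrib, Finset.card_filter]
  push_cast
  apply Finset.sum_le_sum
  intro j _
  cases hx : x j <;> cases hy : y j <;> simp

lemma W1_ge {n : ℕ} (μ ν : Cube n → ℝ) (hμ : ∀ x, 0 ≤ μ x) (hν : ∀ x, 0 ≤ ν x)
    (hμ1 : ∑ x, μ x = 1) (hν1 : ∑ x, ν x = 1) :
    ∑ y, wt y * ν y - ∑ x, wt x * μ x ≤ W1 μ ν := by
  unfold W1
  apply le_csInf
  · refine ⟨_, fun x y => μ x * ν y, ⟨fun x y => mul_nonneg (hμ x) (hν y), ?_, ?_⟩, rfl⟩
    · intro x
      rw [← Finset.mul_sum, hν1, mul_one]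
    · intro y
      rw [← Finset.sum_mul, hμ1, one_mul]
  · rintro c ⟨q, ⟨hq0, hq1, hq2⟩, rfl⟩
    have e1 : ∑ y, wt y * ν y = ∑ x, ∑ y, wt y * q x y := by
      rw [Finset.sum_comm]
      apply Finset.sum_congr rfl
      intro y _
      rw [← hq2 y, Finset.mul_sum]
    have e2 : ∑ x, wt x * μ x = ∑ x, ∑ y, wt x * q x y := by
      apply Finset.sum_congr rfl
      intro x _
      rw [← hq1 x, Finset.mul_sum]
    rw [e1, e2, ← Finset.sum_sub_distrib]
    apply Finset.sum_le_sum
    intro x _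
    rw [← Finset.sum_sub_distrib]
    apply Finset.sum_le_sum
    intro y _
    rw [← sub_mul]
    exact mul_le_mul_of_nonneg_right (wt_sub_le x y) (hq0 x y)

lemma unif_nonneg {n : ℕ} (A : Finset (Cube n)) (x : Cube n) : 0 ≤ unif A x := by
  unfold unif
  split_ifs <;> positivity

lemma sum_mul_unif {n : ℕ} (A : Finset (Cube n)) (f : Cube n → ℝ) :
    ∑ x, f x * unif A x = (∑ x ∈ A, f x) / (A.card : ℝ) := by
  unfold unif
  simp only [mul_ite, mul_zero]
  rw [← Finset.sum_filter, Finset.sum_div]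
  apply Finset.sum_congr
  · ext x; simp
  · intro x _; ring

lemma sum_unif {n : ℕ} (A : Finset (Cube n)) (hA : 0 < A.card) : ∑ x, unif A x = 1 := by
  have h := sum_mul_unif A (fun _ => 1)
  simp only [one_mul, Finset.sum_const, nsmul_eq_mul, mul_one] at h
  rw [h]
  have : (A.card : ℝ) ≠ 0 := by positivity
  field_simp

/-- Splitting the coordinates into blocks. -/
def blocks (s w : ℕ) : Cube (s * w) ≃ (Fin s → Fin w → Bool) :=
  (Equiv.arrowCongr finProdFinEquiv.symm (Equiv.refl Bool)).trans (Equiv.curry _ _ _)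

lemma blocks_apply (s w : ℕ) (x : Cube (s * w)) (i : Fin s) (j : Fin w) :
    blocks s w x i j = x (finProdFinEquiv (i, j)) := by
  simp [blocks, Equiv.arrowCongr, Function.curry]

lemma tribes_iff (s w : ℕ) (x : Cube (s * w)) :
    Tribes s w x ↔ ∃ i : Fin s, blocks s w x i = fun _ => true := by
  constructor
  · rintro ⟨i, hi, h⟩
    refine ⟨⟨i, hi⟩, ?_⟩
    funext j
    rw [blocks_apply]
    apply h
    · simp [finProdFinEquiv]; nlinarith
    · have := j.2
      simp [finProdFinEquiv]; nlinarith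
  · rintro ⟨i, h⟩
    refine ⟨i, i.2, ?_⟩
    intro j h1 h2
    have hj : (j : ℕ) - i * w < w := by
      have : (i + 1 : ℕ) * w = i * w + w := by ring
      omega
    have := congrFun h ⟨j - i * w, hj⟩
    rw [blocks_apply] at this
    have e : finProdFinEquiv (i, (⟨j - i * w, hj⟩ : Fin w)) = j := by
      apply Fin.ext
      simp only [finProdFinEquiv, Equiv.coe_fn_mk]
      have : w * (i : ℕ) = i * w := by ring
      omega
    rwa [e] at this

lemma wt_blocks (s w : ℕ) (x : Cube (s * w)) : wt x = ∑ i, wt (blocks s w x i) := by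
  unfold wt
  rw [← Fintype.sum_prod_type' (f := fun i j => if blocks s w x i j = true then (1 : ℝ) else 0)]
  rw [← finProdFinEquiv.sum_comp]
  apply Finset.sum_congr rfl
  rintro ⟨i, j⟩ _
  rw [blocks_apply]

lemma sum_pi {α : Type} [DecidableEq α] (s : ℕ) (t : Finset α) (g : α → ℝ) :
    ∑ p ∈ Fintype.piFinset (fun _ : Fin s => t), ∑ i, g (p i)
      = s * ((∑ a ∈ t, g a) * (t.card : ℝ) ^ (s - 1)) := by
  rw [Finset.sum_comm]
  have key : ∀ i : Fin s, ∑ p ∈ Fintype.piFinset (fun _ : Fin s => t), g (p i)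
      = (∑ a ∈ t, g a) * (t.card : ℝ) ^ (s - 1) := by
    intro i
    have h := Finset.prod_univ_sum (fun _ : Fin s => t)
      (fun k a => if k = i then g a else (1 : ℝ))
    have h2 : ∀ p : Fin s → α, ∏ k, (if k = i then g (p k) else (1 : ℝ)) = g (p i) := by
      intro p
      rw [Finset.prod_ite_eq']
      simp
    simp only [h2] at h
    rw [← h, ← Finset.mul_prod_erase _ _ (Finset.mem_univ i)]
    simp only [if_true]
    congr 1
    rw [Finset.prod_congr rfl (g := fun _ => (t.card : ℝ))]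
    · simp
    · intro k hk
      have : k ≠ i := Finset.ne_of_mem_erase hk
      simp [this]
  simp only [key, Finset.sum_const, Finset.card_univ, Fintype.card_fin, nsmul_eq_mul]

lemma sum_wt_univ (w : ℕ) : ∑ a : Fin w → Bool, wt a = w * (2 : ℝ) ^ (w - 1) := by
  have h := sum_pi w (Finset.univ : Finset Bool) (fun b => if b = true then (1 : ℝ) else 0)
  rw [Fintype.piFinset_univ] at h
  unfold wt
  rw [h]
  simp

lemma setZ_map (s w : ℕ) :
    (setZ s w).map (blocks s w).toEmbedding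
      = Fintype.piFinset (fun _ : Fin s => (Finset.univ : Finset (Fin w → Bool)).erase
          (fun _ => true)) := by
  ext p
  simp only [Finset.mem_map_equiv, setZ, setA, Finset.mem_compl, Finset.mem_filter,
    Finset.mem_univ, true_and, tribes_iff, Equiv.apply_symm_apply, Fintype.mem_piFinset,
    Finset.mem_erase, and_true, not_exists, ne_eq]

lemma card_setZ (s w : ℕ) : ((setZ s w).card : ℝ) = ((2 : ℝ) ^ w - 1) ^ s := by
  rw [← Finset.card_map (blocks s w).toEmbedding, setZ_map, Fintype.card_piFinset]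
  simp only [Finset.prod_const, Finset.card_univ, Fintype.card_fin]
  rw [Finset.card_erase_of_mem (Finset.mem_univ _)]
  simp only [Finset.card_univ, Fintype.card_pi, Fintype.card_bool, Finset.prod_const,
    Fintype.card_fin]
  push_cast
  rw [Nat.cast_sub Nat.one_le_two_pow]
  simp

lemma sum_wt_setZ (s w : ℕ) :
    ∑ x ∈ setZ s w, wt x
      = s * ((w * (2 : ℝ) ^ (w - 1) - w) * ((2 : ℝ) ^ w - 1) ^ (s - 1)) := by
  have h := sum_pi s ((Finset.univ : Finset (Fin w → Bool)).erase (fun _ => true)) wt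
  rw [← setZ_map, Finset.sum_map] at h
  simp only [Equiv.coe_toEmbedding, ← wt_blocks] at h
  rw [h]
  congr 2
  · rw [Finset.sum_erase_eq_sub (Finset.mem_univ _), sum_wt_univ]
    simp [wt]
  · rw [Finset.card_erase_of_mem (Finset.mem_univ _)]
    simp only [Finset.card_univ, Fintype.card_pi, Fintype.card_bool, Finset.prod_const,
      Fintype.card_fin]
    rw [Nat.cast_sub Nat.one_le_two_pow]
    simp

lemma gap (s w : ℕ) (hs : 1 ≤ s) (hw : 1 ≤ w) :
    (s : ℝ) * w / (2 * ((2 : ℝ) ^ w - 1)) ≤ W1 (unif (setZ s w)) (unif (setA s w)) := by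
  have hN : (2 : ℝ) ≤ 2 ^ w := by
    calc (2 : ℝ) = 2 ^ 1 := by norm_num
      _ ≤ 2 ^ w := pow_le_pow_right₀ (by norm_num) hw
  have hZ := card_setZ s w
  have hZpos : (0 : ℝ) < ((setZ s w).card : ℝ) := by
    rw [hZ]; apply pow_pos; linarith
  have htot : ((setA s w).card : ℝ) + ((setZ s w).card : ℝ) = 2 ^ (s * w) := by
    have := Finset.card_add_card_compl (setA s w)
    simp only [Fintype.card_pi, Fintype.card_bool, Finset.prod_const, Finset.card_univ,
      Fintype.card_fin] at this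
    unfold setZ
    exact_mod_cast this
  have hlt : ((2 : ℝ) ^ w - 1) ^ s < 2 ^ (s * w) := by
    rw [mul_comm s w, pow_mul]
    apply pow_lt_pow_left₀ (by linarith) (by linarith) (by omega)
  have hApos : (0 : ℝ) < ((setA s w).card : ℝ) := by linarith
  have hsum : ∑ x ∈ setA s w, wt x + ∑ x ∈ setZ s w, wt x
      = (s * w : ℝ) * 2 ^ (s * w - 1) := by
    unfold setZ
    rw [Finset.sum_add_sum_compl, sum_wt_univ]
    push_cast
    ring
  have hSZ := sum_wt_setZ s w
  refine le_trans ?_ (W1_ge _ _ (unif_nonneg _) (unif_nonneg _)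
    (sum_unif _ (by exact_mod_cast hZpos)) (sum_unif _ (by exact_mod_cast hApos)))
  rw [sum_mul_unif, sum_mul_unif]
  set a : ℝ := ((setA s w).card : ℝ) with ha
  set z : ℝ := ((setZ s w).card : ℝ) with hz
  set SA := ∑ x ∈ setA s w, wt x
  set SZ := ∑ x ∈ setZ s w, wt x
  set N : ℝ := 2 ^ w with hNdef
  have hN2 : (2 : ℝ) ^ (w - 1) = N / 2 := by
    rw [hNdef]
    obtain ⟨k, rfl⟩ := Nat.exists_eq_add_of_le hw
    rw [Nat.add_sub_cancel_left, pow_add]; ring
  have hT2 : (2 : ℝ) ^ (s * w - 1) = (a + z) / 2 := by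
    rw [htot]
    have : 1 ≤ s * w := Nat.mul_pos hs hw
    obtain ⟨k, hk⟩ := Nat.exists_eq_add_of_le this
    rw [hk, Nat.add_sub_cancel_left, pow_add]; ring
  have hN1 : 0 < N - 1 := by linarith
  have hz1 : (N - 1) ^ (s - 1) = z / (N - 1) := by
    rw [hZ]
    obtain ⟨k, rfl⟩ := Nat.exists_eq_add_of_le hs
    rw [Nat.add_sub_cancel_left, pow_add]
    field_simp
  rw [hN2, hz1] at hSZ
  rw [hT2] at hsum
  set g : ℝ := (s : ℝ) * w / (2 * (N - 1)) with hg
  have hg0 : 0 ≤ g := by positivity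
  have hE0 : SZ / z = (s : ℝ) * w / 2 - g := by
    rw [hSZ, hg]; field_simp; ring
  have hSZ' : SZ = z * ((s : ℝ) * w / 2 - g) := by
    rw [← hE0]; field_simp
  have hE1 : (s : ℝ) * w / 2 ≤ SA / a := by
    rw [le_div_iff₀ hApos]
    have : 0 ≤ z * g := by positivity
    nlinarith
  linarith

lemma sw_ge (w : ℕ) (hw : 1 ≤ w) : 2 ^ (w - 1) ≤ sw w := by
  have hN : (2 : ℝ) ≤ 2 ^ w := by
    calc (2 : ℝ) = 2 ^ 1 := by norm_num
      _ ≤ 2 ^ w := pow_le_pow_right₀ (by norm_num) hw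
  have hpos : (0 : ℝ) < 1 / 2 ^ w := by positivity
  have hle : 1 / (2 : ℝ) ^ w ≤ 1 / 2 := one_div_le_one_div_of_le (by norm_num) hN
  unfold sw
  apply le_csSup
  · obtain ⟨m, hm⟩ := exists_pow_lt_of_lt_one (show (0 : ℝ) < 1 / 2 by norm_num)
      (show 1 - 1 / (2 : ℝ) ^ w < 1 by linarith)
    refine ⟨m, ?_⟩
    intro s hs
    simp only [Set.mem_ofPred_eq] at hs
    by_contra hc
    push Not at hc
    have : (1 - 1 / (2 : ℝ) ^ w) ^ s ≤ (1 - 1 / (2 : ℝ) ^ w) ^ m :=
      pow_le_pow_of_le_one (by linarith) (by linarith) hc.le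
    linarith
  · simp only [Set.mem_ofPred_eq]
    have hb := one_add_mul_le_pow (show (-2 : ℝ) ≤ -(1 / 2 ^ w) by linarith) (2 ^ (w - 1))
    have e : ((2 ^ (w - 1) : ℕ) : ℝ) * -(1 / (2 : ℝ) ^ w) = -(1 / 2) := by
      obtain ⟨k, rfl⟩ := Nat.exists_eq_add_of_le hw
      rw [Nat.add_sub_cancel_left, pow_add]
      push_cast
      field_simp
    rw [e, ← sub_eq_add_neg, ← sub_eq_add_neg] at hb
    linarith

lemma lower (w : ℕ) (hw : 1 ≤ w) :
    (w : ℝ) / 4 ≤ W1 (unif (setZ (sw w) w)) (unif (setA (sw w) w)) := by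
  have h1 := sw_ge w hw
  have hs : 1 ≤ sw w := le_trans Nat.one_le_two_pow h1
  refine le_trans ?_ (gap (sw w) w hs hw)
  have hN : (2 : ℝ) ≤ 2 ^ w := by
    calc (2 : ℝ) = 2 ^ 1 := by norm_num
      _ ≤ 2 ^ w := pow_le_pow_right₀ (by norm_num) hw
  have h2 : (2 : ℝ) ^ w ≤ 2 * (sw w : ℝ) := by
    have : ((2 ^ (w - 1) : ℕ) : ℝ) ≤ (sw w : ℝ) := by exact_mod_cast h1
    obtain ⟨k, rfl⟩ := Nat.exists_eq_add_of_le hw
    rw [Nat.add_sub_cancel_left] at this
    push_cast at this
    rw [pow_add]; linarith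
  rw [div_le_div_iff₀ (by norm_num) (by linarith)]
  have hw0 : (0 : ℝ) ≤ w := by positivity
  nlinarith

/-- There is no constant `C` with `W_1(μ^0, μ^1) ≤ C` for all `w ≥ 1`. -/
theorem result :
    ¬ ∃ C : ℝ, ∀ w : ℕ, 1 ≤ w →
      W1 (unif (setZ (sw w) w)) (unif (setA (sw w) w)) ≤ C := by
  rintro ⟨C, hC⟩
  obtain ⟨m, hm⟩ := exists_nat_gt (4 * C)
  have h1 := hC (m + 1) (by omega)
  have h2 := lower (m + 1) (by omega)
  push_cast at h2
  linarith

end Pool.Agent.Results.MP_b6f08f_co.TribesW1Unbounded
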